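import Pool.Agent.Helper50.Tm.Goals
import Mathlib

/-!
# Project TAME (MP_f619a5_ag), packet BASEC: base change and connected components
-/

set_option autoImplicit false
set_option linter.unusedSectionVars false

open CategoryTheory AlgebraicGeometry Limits TensorProduct MonoidalCategory
open scoped Obj

namespace Pool.Agent.Helper14.Tm

open Pool.Agent.Helper50.Tm
open Pool.Agent.Helper40.Nm (specOver homGroup specialFibre)

theorem mem_sf {R : Type} [CommRing R] [IsLocalRing R] {G : Over (Spec (CommRingCat.of R))}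
    (s : Pts G R) : cpt s ∈ specialFibre G := by
  show G.hom (s.left (IsLocalRing.closedPoint R)) = IsLocalRing.closedPoint R
  have h : s.left ≫ G.hom = 𝟙 _ := by
    have h1 := Over.w s
    refine h1.trans ?_
    change Spec.map (CommRingCat.ofHom (RingHom.id R)) = _
    exact Spec.map_id _
  rw [← Scheme.Hom.comp_apply, h]
  rfl

section

variable {R S : Type} [CommRing R] [IsLocalRing R] [CommRing S] [IsLocalRing S] [Algebra R S]
  (γ : S →+* IsLocalRing.ResidueField R) (hγ : γ.comp (algebraMap R S) = IsLocalRing.residue R)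
  (G : Over (Spec (CommRingCat.of R)))

/-- `Spec k → Spec R` -/
noncomputable abbrev gk (R : Type) [CommRing R] [IsLocalRing R] :
    Spec (CommRingCat.of (IsLocalRing.ResidueField R)) ⟶ Spec (CommRingCat.of R) :=
  Spec.map (CommRingCat.ofHom (IsLocalRing.residue R))

include hγ in
theorem lam_w : pullback.fst G.hom (gk R) ≫ G.hom =
    (pullback.snd G.hom (gk R) ≫ Spec.map (CommRingCat.ofHom γ)) ≫
      Spec.map (CommRingCat.ofHom (algebraMap R S)) := by
  rw [pullback.condition, Category.assoc, ← Spec.map_comp, ← CommRingCat.ofHom_comp, hγ]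

/-- the morphism from the special fibre of `G` to `G ×_R S` -/
noncomputable def lam : pullback G.hom (gk R) ⟶ ((bc R S).obj G).left :=
  pullback.lift (pullback.fst G.hom (gk R))
    (pullback.snd G.hom (gk R) ≫ Spec.map (CommRingCat.ofHom γ)) (lam_w γ hγ G)

theorem sec_w (s : Pts G R) : s.left ≫ G.hom = 𝟙 _ := by
  have h1 := Over.w s
  refine h1.trans ?_
  change Spec.map (CommRingCat.ofHom (RingHom.id R)) = _
  exact Spec.map_id _

/-- the closed point of a section as a point of the special fibre -/
noncomputable def zeta (s : Pts G R) : Spec (CommRingCat.of (IsLocalRing.ResidueField R)) ⟶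
    pullback G.hom (gk R) :=
  pullback.lift (gk R ≫ s.left) (𝟙 _) (by
    rw [Category.assoc, sec_w]
    exact (Category.comp_id _).trans (Category.id_comp _).symm)

theorem zeta_lam (s : Pts G R) : zeta G s ≫ lam γ hγ G =
    Spec.map (CommRingCat.ofHom γ) ≫
      (bcEquiv (M := S) G (s.map (Algebra.ofId R S))).left := by
  apply pullback.hom_ext
  · rw [Category.assoc, Category.assoc, bcEquiv_left_fst, Pts.map_left]
    have h1 : lam γ hγ G ≫ pullback.fst _ _ = pullback.fst G.hom (gk R) :=
      pullback.lift_fst _ _ _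
    have h2 : zeta G s ≫ pullback.fst _ _ = gk R ≫ s.left := pullback.lift_fst _ _ _
    rw [h1, h2, ← Category.assoc]
    congr 1
    have h3 : γ.comp (Algebra.ofId R S).toRingHom = IsLocalRing.residue R := hγ
    rw [← Spec.map_comp, ← CommRingCat.ofHom_comp, h3]
  · rw [Category.assoc, Category.assoc]
    have h1 : lam γ hγ G ≫ pullback.snd _ _ =
        pullback.snd G.hom (gk R) ≫ Spec.map (CommRingCat.ofHom γ) := pullback.lift_snd _ _ _
    have h2 : zeta G s ≫ pullback.snd _ _ = 𝟙 _ := pullback.lift_snd _ _ _
    have h3 : (bcEquiv (M := S) G (s.map (Algebra.ofId R S))).left ≫ pullback.snd _ _ = 𝟙 _ := by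
      have h4 := Over.w (bcEquiv (M := S) G (s.map (Algebra.ofId R S)))
      refine h4.trans ?_
      change Spec.map (CommRingCat.ofHom (RingHom.id S)) = _
      exact Spec.map_id _
    rw [h1, h3, ← Category.assoc, h2, Category.id_comp]
    exact (Category.comp_id _).symm

include hγ in
theorem conn_bc [IsLocalHom γ] (H : Over (Spec (CommRingCat.of S))) (b : (bc R S).obj G ⟶ H)
    (s s' : Pts G R) (h : SameComp s s') :
    SameComp (bcEquiv (M := S) G (s.map (Algebra.ofId R S)) ≫ b)
      (bcEquiv (M := S) G (s'.map (Algebra.ofId R S)) ≫ b) := by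
  set pt := IsLocalRing.closedPoint (IsLocalRing.ResidueField R) with hpt
  have hpt1 : (gk R) pt = IsLocalRing.closedPoint R := by
    exact IsLocalRing.comap_closedPoint (IsLocalRing.residue R)
  have hpt2 : (Spec.map (CommRingCat.ofHom γ)) pt = IsLocalRing.closedPoint S := by
    exact IsLocalRing.comap_closedPoint γ
  set C := connectedComponentIn (specialFibre G) (cpt s) with hC
  set ι := pullback.fst G.hom (gk R) with hι
  have hcl : IsClosedImmersion (gk R) :=
    IsClosedImmersion.spec_of_surjective _ Ideal.Quotient.mk_surjective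
  have hind : Topology.IsInducing ι := by
    have h1 : IsClosedImmersion ι := by
      rw [hι]
      infer_instance
    exact ι.isClosedEmbedding.isInducing
  have hrange : C ⊆ Set.range ι := by
    rw [hι, Scheme.Pullback.range_fst]
    intro y hy
    have h1 := connectedComponentIn_subset _ _ hy
    change G.hom y = IsLocalRing.closedPoint R at h1
    refine ⟨pt, ?_⟩
    rw [h1]
    exact hpt1
  have hpre : _root_.IsPreconnected (ι ⁻¹' C) := by
    rw [← hind.isPreconnected_image, Set.image_preimage_eq_of_subset hrange]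
    exact isPreconnected_connectedComponentIn
  set D := (fun y => (lam γ hγ G ≫ b.left) y) '' (ι ⁻¹' C) with hD
  have hDpre : _root_.IsPreconnected D :=
    hpre.image _ (lam γ hγ G ≫ b.left).continuous.continuousOn
  have hmem : ∀ u : Pts G R, cpt u ∈ C →
      cpt (bcEquiv (M := S) G (u.map (Algebra.ofId R S)) ≫ b) ∈ D := by
    intro u hu
    refine ⟨zeta G u pt, ?_, ?_⟩
    · show ι (zeta G u pt) ∈ C
      have h1 : zeta G u ≫ ι = gk R ≫ u.left := pullback.lift_fst _ _ _
      rw [← Scheme.Hom.comp_apply, h1, Scheme.Hom.comp_apply, hpt1]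
      exact hu
    · show (lam γ hγ G ≫ b.left) (zeta G u pt) =
        ((bcEquiv (M := S) G (u.map (Algebra.ofId R S))).left ≫ b.left)
          (IsLocalRing.closedPoint S)
      rw [← Scheme.Hom.comp_apply, ← Category.assoc, zeta_lam, Category.assoc,
        Scheme.Hom.comp_apply, hpt2]
  have hDsub : D ⊆ specialFibre H := by
    rintro _ ⟨y, -, rfl⟩
    show H.hom ((lam γ hγ G ≫ b.left) y) = IsLocalRing.closedPoint S
    have h1 : (lam γ hγ G ≫ b.left) ≫ H.hom =
        pullback.snd G.hom (gk R) ≫ Spec.map (CommRingCat.ofHom γ) := by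
      rw [Category.assoc, Over.w b]
      exact pullback.lift_snd _ _ _
    rw [← Scheme.Hom.comp_apply, h1, Scheme.Hom.comp_apply]
    have h2 : (pullback.snd G.hom (gk R)) y = pt := Subsingleton.elim (α :=
      PrimeSpectrum (IsLocalRing.ResidueField R)) _ _
    rw [h2]
    exact hpt2
  have hs : cpt s ∈ C := mem_connectedComponentIn (mem_sf s)
  exact hDpre.subset_connectedComponentIn (hmem s hs) hDsub (hmem s' h)

end

theorem gBASEC (hBASE : BASE) : BASEC := by
  intro K R M S N _ _ _ _ _ _ _ _ _ _ _ _ _ _ _ _ _ _ X _ 𝒢 ℋ hres x hx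
  obtain ⟨b, hb⟩ := hBASE K R M S N X 𝒢 ℋ
  have hbij : Function.Bijective (IsLocalRing.ResidueField.map (algebraMap R S)) := by
    refine ⟨RingHom.injective _, ?_⟩
    intro y
    obtain ⟨s, rfl⟩ := IsLocalRing.residue_surjective y
    obtain ⟨r, hr⟩ := hres s
    refine ⟨IsLocalRing.residue R r, ?_⟩
    rw [IsLocalRing.ResidueField.map_residue, eq_comm, ← sub_eq_zero, ← map_sub]
    exact (IsLocalRing.residue_eq_zero_iff _).2 hr
  let E := RingEquiv.ofBijective _ hbij
  let γ : S →+* IsLocalRing.ResidueField R :=
    (E.symm : IsLocalRing.ResidueField S →+* IsLocalRing.ResidueField R).comp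
      (IsLocalRing.residue S)
  have hγ : γ.comp (algebraMap R S) = IsLocalRing.residue R := by
    ext r
    show E.symm (IsLocalRing.residue S (algebraMap R S r)) = IsLocalRing.residue R r
    rw [RingEquiv.symm_apply_eq]
    show _ = IsLocalRing.ResidueField.map (algebraMap R S) (IsLocalRing.residue R r)
    rw [IsLocalRing.ResidueField.map_residue]
  have hloc : IsLocalHom γ := by
    constructor
    intro s hs
    by_contra hn
    have h1 : IsLocalRing.residue S s = 0 :=
      (IsLocalRing.residue_eq_zero_iff s).2 ((IsLocalRing.mem_maximalIdeal s).2 hn)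
    have h2 : γ s = 0 := by
      show E.symm (IsLocalRing.residue S s) = 0
      rw [h1, map_zero]
    rw [h2] at hs
    exact not_isUnit_zero hs
  have h1 := conn_bc γ hγ 𝒢.G ℋ.G b (sec 𝒢 1) (sec 𝒢 x) (by
    rw [map_one]
    exact hx)
  rw [hb, hb] at h1
  have h2 : (1 : Pts X M).map (IsScalarTower.toAlgHom K M N) = 1 := Pts.map_one _
  rw [h2, map_one] at h1
  exact h1

end Pool.Agent.Helper14.Tm
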